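import Pool.Agent.R39.PCG.Cog

/-!
A pairwise compatibility graph whose complement is not a 2-AND-PCG (in fact, for every `k`, a
pairwise compatibility graph whose complement is not a `k`-AND-PCG).

The definitions (`WTree`, `WTree.d`, `IsInterval`, `IsPCG`, `IsAndPCG`) are in
`Pool/Agent/R39/PCG/Defs.lean`.
-/

namespace Pool.Agent.Results.MP_488b30_co.ComplementNotAndPCG

open Pool.Agent.R39.PCG

/-- For every `k` there is a finite graph which is a PCG and whose complement is not a
`k`-AND-PCG; `k = 2` is the negated form of the question. -/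
theorem result : ∀ k : ℕ, ∃ (V : Type) (_ : Finite V) (G : SimpleGraph V),
    IsPCG G ∧ ¬ IsAndPCG k Gᶜ := by
  intro k
  obtain ⟨N, _, h1, h2⟩ := and_not_closed k
  exact ⟨Tr N 3, instFiniteTr N 3, cog N 3, h1, h2⟩

end Pool.Agent.Results.MP_488b30_co.ComplementNotAndPCG
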